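import Pool.Agent.W2helper50.KB.Main
import Pool.Agent.W2helper50.KA.OneWay2

/-!
# One-way functions with algebraic access do not give public-key encryption

The oracle is a uniformly random element `f` of a finite abelian group `G`, for instance a random
function from a finite set to a finite abelian group. All parties, honest or not, have algebraic
access: a query is (given by) a homomorphism from `G` to a finite abelian group `H`, for instance an
arbitrary linear functional of the whole table of `f`, such as the value of a low degree extension.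

1. Random functions are one-way: an adversary with `q` algebraic queries inverts `f` with
   probability at most `(q log |H| + log |Y|) (1 / |X| + 1 / |Y|)`.
2. Every public-key encryption scheme, with any probability of decryption errors, is broken: if key
   generation, encryption and decryption make at most `g`, `e` and `d` algebraic queries, then an
   eavesdropper with at most `L (e + L (g + d)) + L (g + d)` algebraic queries finds the encrypted
   bit with the same probability as the receiver, up to `(2 g + e) log |H| / L`.
-/

set_option autoImplicit false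

namespace Pool.Agent.Results.MP_5f4f03_lc.AlgebraicAccess

open Pool.Agent.W2helper50.KA

/-- The probability of a property of a uniformly random element of a finite set. -/
noncomputable def probability {Ω : Type} (P : Ω → Prop) : ℝ :=
  (Nat.card {ω // P ω} : ℝ) / (Nat.card Ω : ℝ)

/-- The probability, over a uniformly random point `x` and a uniformly random function `f`, that the
adversary `Adv`, when it gets `f x` and can make queries to `f`, finds a preimage of `f x`. -/
noncomputable def inversionProbability {X Y H : Type} [AddCommGroup Y] [AddCommGroup H]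
    (Adv : Y → Alg ((X → Y) →+ H) H X) : ℝ :=
  probability fun p : X × (X → Y) => p.2 ((Adv (p.2 p.1)).out (fun φ => φ p.2)) = p.2 p.1

/-- The probability that the receiver decrypts the ciphertext correctly. The random choices are
`p.1`, the coins of the key generation, `p.2.1.1`, the encrypted bit, `p.2.1.2`, the coins of the
encryption, and `p.2.2`, the oracle. -/
noncomputable def decryptionProbability {G I H RG RE PK SK C : Type} [AddCommGroup G]
    [AddCommGroup H] (ev : I → G →+ H) (E : PKE I H RG RE PK SK C) : ℝ :=
  probability fun p : RG × (Bool × RE) × G =>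
    (E.dec ((E.gen p.1).out (fun i => ev i p.2.2)).2
      (E.ct p.1 p.2.1.2 p.2.1.1 (fun i => ev i p.2.2))).out (fun i => ev i p.2.2) = p.2.1.1

/-- The probability, over the same random choices, that the eavesdropper `Eve`, who gets the public
key and the ciphertext and can make queries, finds the encrypted bit. -/
noncomputable def eavesdroppingProbability {G I H RG RE PK SK C : Type} [AddCommGroup G]
    [AddCommGroup H] (ev : I → G →+ H) (E : PKE I H RG RE PK SK C)
    (Eve : PK → C → Alg I H Bool) : ℝ :=
  probability fun p : RG × (Bool × RE) × G =>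
    (Eve (E.pk p.1 (fun i => ev i p.2.2))
      (E.ct p.1 p.2.1.2 p.2.1.1 (fun i => ev i p.2.2))).out (fun i => ev i p.2.2) = p.2.1.1

theorem card_ne {Ω : Type} [Fintype Ω] (P : Ω → Prop) :
    Nat.card {ω // P ω} + W2helper50.KB.cnt (fun ω => ¬ P ω) = Fintype.card Ω := by
  classical
  have h1 : Nat.card {ω // P ω} = W2helper50.KB.cnt P := by
    rw [W2helper50.KB.cnt, ← Fintype.card_subtype, Nat.card_eq_fintype_card]
  have h2 : W2helper50.KB.cnt (fun _ : Ω => True) = Fintype.card Ω := by
    simp [W2helper50.KB.cnt]
  rw [h1, ← h2, W2helper50.KB.cnt_split (fun _ : Ω => True) P]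
  simp only [true_and]

/-- Relative to a random function with algebraic access, there are one-way functions, but there is
no public-key encryption. -/
theorem result :
    (∀ (X Y H : Type) [Fintype X] [Nonempty X] [Fintype Y] [AddCommGroup Y] [Nontrivial Y]
      [AddCommGroup H] [Fintype H] (Adv : Y → Alg ((X → Y) →+ H) H X) (q : ℕ),
      (∀ (y : Y) (f : X → Y), (Adv y).cost (fun φ => φ f) ≤ q) →
      inversionProbability Adv ≤
        (q * Nat.clog 2 (Nat.card H) + Nat.clog 2 (Nat.card Y) : ℝ) *
          (1 / Nat.card X + 1 / Nat.card Y)) ∧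
    (∀ (G I H RG RE PK SK C : Type) [AddCommGroup G] [Finite G] [AddCommGroup H] [Finite H]
      [Finite RG] [Finite RE] (ev : I → G →+ H) (E : PKE I H RG RE PK SK C) (g e d L : ℕ),
      0 < L →
      (∀ (r : RG) (f : G), (E.gen r).cost (fun i => ev i f) ≤ g) →
      (∀ (pk : PK) (β : Bool) (s : RE) (f : G), (E.enc pk β s).cost (fun i => ev i f) ≤ e) →
      (∀ (sk : SK) (c : C) (f : G), (E.dec sk c).cost (fun i => ev i f) ≤ d) →
      ∃ Eve : PK → C → Alg I H Bool,
        (∀ (pk : PK) (c : C) (f : G), (Eve pk c).cost (fun i => ev i f) ≤
          L * (e + L * (g + d)) + L * (g + d)) ∧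
        decryptionProbability ev E - (2 * g + e : ℝ) * Nat.clog 2 (Nat.card H) / L ≤
          eavesdroppingProbability ev E Eve) := by
  refine ⟨?_, ?_⟩
  · intro X Y H _ _ _ _ _ _ _ Adv q hq
    exact oneWay Adv q hq
  · intro G I H RG RE PK SK C _ _ _ _ _ _ ev E g e d L hL hg he hd
    have := Fintype.ofFinite G
    have := Fintype.ofFinite RG
    have := Fintype.ofFinite RE
    obtain ⟨Eve, h1, h2⟩ := W2helper50.KB.pkeError ev E g e d L hL hg he hd
    refine ⟨Eve, h1, ?_⟩
    rw [decryptionProbability, eavesdroppingProbability, probability, probability]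
    have hd := card_ne (fun p : RG × (Bool × RE) × G =>
      (E.dec ((E.gen p.1).out (fun i => ev i p.2.2)).2
      (E.ct p.1 p.2.1.2 p.2.1.1 (fun i => ev i p.2.2))).out (fun i => ev i p.2.2) = p.2.1.1)
    have he := card_ne (fun p : RG × (Bool × RE) × G =>
      (Eve (E.pk p.1 (fun i => ev i p.2.2))
      (E.ct p.1 p.2.1.2 p.2.1.1 (fun i => ev i p.2.2))).out (fun i => ev i p.2.2) = p.2.1.1)
    rw [Nat.card_eq_fintype_card (α := RG × (Bool × RE) × G)]
    simp only [ne_eq] at h2
    generalize W2helper50.KB.cnt (fun p : RG × (Bool × RE) × G =>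
      ¬ (E.dec ((E.gen p.1).out (fun i => ev i p.2.2)).2
      (E.ct p.1 p.2.1.2 p.2.1.1 (fun i => ev i p.2.2))).out (fun i => ev i p.2.2) = p.2.1.1) =
      a at *
    generalize W2helper50.KB.cnt (fun p : RG × (Bool × RE) × G =>
      ¬ (Eve (E.pk p.1 (fun i => ev i p.2.2))
      (E.ct p.1 p.2.1.2 p.2.1.1 (fun i => ev i p.2.2))).out (fun i => ev i p.2.2) = p.2.1.1) =
      b at *
    generalize Nat.card {p : RG × (Bool × RE) × G //
      (E.dec ((E.gen p.1).out (fun i => ev i p.2.2)).2
      (E.ct p.1 p.2.1.2 p.2.1.1 (fun i => ev i p.2.2))).out (fun i => ev i p.2.2) = p.2.1.1} =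
      x at *
    generalize Nat.card {p : RG × (Bool × RE) × G //
      (Eve (E.pk p.1 (fun i => ev i p.2.2))
      (E.ct p.1 p.2.1.2 p.2.1.1 (fun i => ev i p.2.2))).out (fun i => ev i p.2.2) = p.2.1.1} =
      y at *
    generalize Fintype.card (RG × (Bool × RE) × G) = N at *
    have hL' : (0 : ℝ) < L := by exact_mod_cast hL
    have hd' : (x : ℝ) + a = N := by exact_mod_cast hd
    have he' : (y : ℝ) + b = N := by exact_mod_cast he
    have h2' : (L : ℝ) * b ≤ L * a + (2 * g + e) * Nat.clog 2 (Nat.card H) * N := by
      exact_mod_cast h2
    rcases Nat.eq_zero_or_pos N with hN | hN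
    · subst hN
      simp only [Nat.cast_zero, div_zero, zero_sub, Left.neg_nonpos_iff]
      positivity
    · have hN' : (0 : ℝ) < N := by exact_mod_cast hN
      rw [sub_le_iff_le_add, div_le_iff₀ hN', add_mul, div_mul_cancel₀ _ hN'.ne', div_mul_eq_mul_div,
        ← sub_le_iff_le_add', le_div_iff₀ hL']
      nlinarith

end Pool.Agent.Results.MP_5f4f03_lc.AlgebraicAccess
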