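import Pool.Agent.W2helper50.KA.Attack
import Pool.Agent.W2helper50.KA.OneWay2

/-!
# One-way functions with algebraic access do not give key agreement

The oracle is an element `f` of a finite abelian group `G`, for instance a function from a finite
set to a finite abelian group. All parties, honest or not, have algebraic access: a query is (given
by) a homomorphism from `G` to a finite abelian group `H`, for instance an arbitrary linear
functional of the whole table of `f`, such as the value of a low degree extension.

1. Random functions are one-way: an adversary with `q` algebraic queries inverts `f` with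
   probability at most `(q log |H| + log |Y|) (1 / |X| + 1 / |Y|)`.
2. In every key agreement protocol with perfect agreement, with any number of messages, in which
   the parties make at most `a` and `b` algebraic queries, an eavesdropper finds the key, always,
   with at most `2 a b log |H|` algebraic queries.
-/

set_option autoImplicit false

namespace Pool.Agent.Results.MP_5f4f03_lc.AlgebraicKeyAgreement

open Pool.Agent.W2helper50.KA

/-- The probability, over a uniformly random point `x` and a uniformly random function `f`, that the
adversary `Adv`, when it gets `f x` and can make queries to `f`, finds a preimage of `f x`. -/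
noncomputable def inversionProbability {X Y H : Type} [AddCommGroup Y] [AddCommGroup H]
    (Adv : Y → Alg ((X → Y) →+ H) H X) : ℝ :=
  (Nat.card {p : X × (X → Y) // p.2 ((Adv (p.2 p.1)).out (fun φ => φ p.2)) = p.2 p.1} : ℝ) /
    (Nat.card (X × (X → Y)) : ℝ)

/-- Relative to a random function with algebraic access, there are one-way functions, but no key
agreement with perfect agreement. -/
theorem result :
    (∀ (X Y H : Type) [Fintype X] [Nonempty X] [Fintype Y] [AddCommGroup Y] [Nontrivial Y]
      [AddCommGroup H] [Fintype H] (Adv : Y → Alg ((X → Y) →+ H) H X) (q : ℕ),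
      (∀ (y : Y) (f : X → Y), (Adv y).cost (fun φ => φ f) ≤ q) →
      inversionProbability Adv ≤
        (q * Nat.clog 2 (Nat.card H) + Nat.clog 2 (Nat.card Y) : ℝ) *
          (1 / Nat.card X + 1 / Nat.card Y)) ∧
    (∀ (G I H M K RA RB : Type) [AddCommGroup G] [Finite G] [AddCommGroup H] [Finite H]
      [Nonempty K] (ev : I → G →+ H) (A : RA → Party I H M K) (B : RB → Party I H M K) (a b : ℕ),
      (∀ (r : RA) (f : G) (t : List (Bool × M)) (qs : List I) (k : K),
        Plays true (fun i => ev i f) (A r) t qs k → qs.length ≤ a) →
      (∀ (r : RB) (f : G) (t : List (Bool × M)) (qs : List I) (k : K),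
        Plays false (fun i => ev i f) (B r) t qs k → qs.length ≤ b) →
      (∀ (r : RA) (s : RB) (f : G) (t : List (Bool × M)) (qA : List I) (kA : K) (qB : List I)
        (kB : K), Plays true (fun i => ev i f) (A r) t qA kA →
        Plays false (fun i => ev i f) (B s) t qB kB → kA = kB) →
      ∃ Eve : List (Bool × M) → Alg I H K,
        ∀ (r : RA) (s : RB) (f : G) (t : List (Bool × M)) (qA : List I) (kA : K) (qB : List I)
          (kB : K), Plays true (fun i => ev i f) (A r) t qA kA →
          Plays false (fun i => ev i f) (B s) t qB kB →
          (Eve t).out (fun i => ev i f) = kB ∧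
            (Eve t).cost (fun i => ev i f) ≤ 2 * a * b * Nat.clog 2 (Nat.card H)) := by
  refine ⟨?_, ?_⟩
  · intro X Y H _ _ _ _ _ _ _ Adv q hq
    exact oneWay Adv q hq
  · intro G I H M K RA RB _ _ _ _ _ ev A B a b hA hB hag
    obtain ⟨Eve, hEve⟩ := keyAgreement ev A B a b hA hB hag
    refine ⟨fun t => (Eve t).getD (.done (Classical.arbitrary K)), ?_⟩
    intro r s f t qA kA qB kB h1 h2
    obtain ⟨P, hP1, hP2, hP3⟩ := hEve r s f t qA kA qB kB h1 h2
    simp only [hP1, Option.getD_some]
    refine ⟨hP2, hP3.trans (le_of_eq ?_)⟩
    ring

end Pool.Agent.Results.MP_5f4f03_lc.AlgebraicKeyAgreement
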