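import Pool.Agent.W2helper58.IR.Dim
import Pool.Agent.W2helper92.IR.FIN1
import Pool.Agent.W2helper19.IR.Fin2
import Pool.Agent.W2helper53.IR.Fin3
import Pool.Agent.W2helper53.IR.Tree
import Pool.Agent.W2helper54.IR.Att
import Pool.Agent.W2helper12.IR.Trans
import Pool.Agent.W2helper12.IR.Dens
import Pool.Agent.W2helper68.IR.Owf1
import Pool.Agent.W2helper31.IR.Owf2
import Pool.Agent.W2helper60.IR.Guide

/-!
# MP_5f4f03_lc: one-way functions without public-key encryption have Hausdorff dimension one

The definitions of the statement are in `Pool.Agent.W2helper58.IR.Defs` (one-way functions,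
encryption schemes) and `Pool.Agent.H620R2.Gauge.Defs` (`Oracle`, `IsFP`, `Extends`, `Null`).

For `f = 0`, `Null f` means Lebesgue measure `0`; for `f N = (1 - s) N` it is the nullity of the
`s`-dimensional Hausdorff measure.

The proof. The oracle is random except on a sparse set of strings, where it is a fixed guide. The
guide tells the attack on an encryption scheme which strings the key generation has asked for with
noticeable probability, given the public key and what is known already, and finally which run of
the key generation is the best one among those which are compatible with what is known; the attack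
decrypts with the secret key of this run, and with the oracle changed accordingly. The guide does
not depend on the random part of the oracle, so the random function remains one-way. That a scheme
may be correct only for some oracles is dealt with by Lebesgue density: the attack knows a
cylinder in which the scheme is almost always correct.
-/

set_option autoImplicit false

namespace Pool.Agent.Results.MP_5f4f03_lc.DimensionOne

open Pool.Agent.NPC Pool.Agent.H620R2.Gauge Pool.Agent.W2helper58.IR

/-- (1) For every gauge `f` with `f N ≥ 2 ^ ((log₂ N) ^ ε)` for some `ε > 0` and all large `N`, the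
set of the oracles relative to which there is an exponentially hard one-way function, but not even
a weak public-key encryption scheme (error of decryption at most `1/100`, advantage less than `1/2`),
is not null for `f`.

(2) So the set of the oracles relative to which there is a one-way function, but no public-key
encryption scheme, is not null for `f`.

(3) In particular this set has Hausdorff dimension `1`: for every `s < 1` its `s`-dimensional
Hausdorff measure is not zero. -/
theorem result :
    (∀ f : ℕ → ℝ,
      (∃ ε : ℝ, 0 < ε ∧ ∀ᶠ N : ℕ in Filter.atTop, (2 : ℝ) ^ (Real.logb 2 N) ^ ε ≤ f N) →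
      ¬ Null f {A : Oracle | HasStrongOWF A ∧ ¬ HasWeakPKE A}) ∧
    (∀ f : ℕ → ℝ,
      (∃ ε : ℝ, 0 < ε ∧ ∀ᶠ N : ℕ in Filter.atTop, (2 : ℝ) ^ (Real.logb 2 N) ^ ε ≤ f N) →
      ¬ Null f {A : Oracle | HasOWF A ∧ ¬ HasPKE A}) ∧
    ∀ s : ℝ, s < 1 → ¬ Null (fun N : ℕ => (1 - s) * N) {A : Oracle | HasOWF A ∧ ¬ HasPKE A} := by
  have key : ∀ f : ℕ → ℝ,
      (∃ ε : ℝ, 0 < ε ∧ ∀ᶠ N : ℕ in Filter.atTop, (2 : ℝ) ^ (Real.logb 2 N) ^ ε ≤ f N) →
      ∀ O : Set Oracle, (∀ A, HasStrongOWF A → ¬ HasWeakPKE A → A ∈ O) → ¬ Null f O :=
    fun f hf O hO => final Pool.Agent.W2helper53.IR.p_tree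
      (Pool.Agent.W2helper53.IR.p_fin3 Pool.Agent.W2helper92.IR.p_fin1
        Pool.Agent.W2helper19.IR.p_fin2a Pool.Agent.W2helper19.IR.p_fin2)
      Pool.Agent.W2helper54.IR.p_att Pool.Agent.W2helper12.IR.p_trans
      Pool.Agent.W2helper12.IR.p_dens
      (Pool.Agent.W2helper31.IR.p_owf2 Pool.Agent.W2helper68.IR.p_owf1)
      Pool.Agent.W2helper60.IR.p_guide f hf O hO
  exact ⟨fun f hf => key f hf _ fun _ h1 h2 => ⟨h1, h2⟩,
    fun f hf => key f hf _ fun _ h1 h2 => ⟨h1.owf, fun h => h2 h.weak⟩,
    fun s hs => key _ (dim_cond hs) _ fun _ h1 h2 => ⟨h1.owf, fun h => h2 h.weak⟩⟩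

end Pool.Agent.Results.MP_5f4f03_lc.DimensionOne
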