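import Pool.Agent.W2helper56.PK.Fin
import Pool.Agent.W2helper92.PK.A1
import Pool.Agent.W2helper53.PK.Bobs
import Pool.Agent.W2helper66.PK.Step
import Pool.Agent.W2helper97.PK.It
import Pool.Agent.W2helper24.PK.B
import Pool.Agent.W2helper53.PK.Hyb
import Pool.Agent.W2helper69.PK.Up
import Pool.Agent.W2helper98.PK.Owf
import Pool.Agent.W2helper23.PK.Owf2
import Pool.Agent.W2helper57.PK.Guide
import Pool.Agent.W2helper99.PK.E23
import Pool.Agent.W2helper36.PK.F1
import Pool.Agent.W2helper71.PK.Loc

/-!
# One-way functions without public-key encryption, where `PSPACE ⊆ UP ∩ coUP`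

There is an oracle relative to which every language in `PSPACE` and its complement are in `UP` (so
`NP = coNP = PSPACE`), there are one-way functions of exponential hardness, and there is no
public-key encryption scheme.

The oracle has three columns. The first one consists of independent random bits. The second one, the
guide, is a fixed function, defined by recursion on the length: it tells an eavesdropper, bit by
bit, the next question of the best strategy against a given scheme. The third one contains the
truth values of all statements about the space-bounded computations with the oracle on shorter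
strings, each of them hidden behind a random certificate. The certificates cannot be found, and
without them the attack of the eavesdropper is analysed in the spirit of Impagliazzo and Rudich, in
a form for public-key encryption with small polynomial losses: she encrypts random bits herself to
learn the questions which the encryption is likely to ask, then repeatedly takes a view of the key
generation which is consistent with what she knows, decrypts with the secret key of this view, and
asks the oracle all questions that occur.
-/

set_option autoImplicit false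

namespace Pool.Agent.Results.MP_5f4f03_lc.UniqueProofsNoPKE

open Pool.Agent.NPC Pool.Agent.H620R2.Gauge Pool.Agent.W2helper56.PK

theorem main : Main := by
  have hit : P_it := W2helper97.PK.p_it W2helper53.PK.p_bobs
    (W2helper66.PK.p_step W2helper92.PK.p_avg)
  exact final (W2helper36.PK.p_att hit W2helper53.PK.p_hyb W2helper99.PK.p_tab)
    W2helper71.PK.p_loc W2helper57.PK.p_guide W2helper99.PK.p_rec W2helper24.PK.p_win
    W2helper24.PK.p_top W2helper24.PK.p_dens W2helper98.PK.p_owf0
    (W2helper23.PK.p_owf2 W2helper98.PK.p_owf1 W2helper53.PK.p_hyb W2helper24.PK.p_win) p_up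

/-- There is an oracle `O` relative to which
* every language in `PSPACE`, and its complement, is in `UP`,
* some function is one-way: every randomized polynomial-time algorithm relative to `O` finds
  preimages with probability at most `2^(-⌊n/2⌋)` only, for all large `n`,
* every encryption scheme for one bit (computable in polynomial time relative to `O`) with errors at
  most `1/100` for all large `n` is broken by a deterministic polynomial-time adversary relative
  to `O`, with advantage at least `3/4` for infinitely many `n`;

in particular, there is a one-way function, but there is no public-key encryption scheme. -/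
theorem result : ∃ O : Oracle,
    (∀ L : Set (List Bool), IsPSPACE O L → IsUP O L ∧ IsUP O Lᶜ) ∧
    (∃ f : List Bool → List Bool, IsFP O f ∧ ∀ (I : List Bool → List Bool) (p : Polynomial ℕ),
      IsFP O I → ∀ᶠ n : ℕ in Filter.atTop, invPr f I p n ≤ 1 / 2 ^ (n / 2)) ∧
    (∀ S : Scheme, S.InFP O → (∀ᶠ n : ℕ in Filter.atTop, ∀ b, S.err n b ≤ 1 / 100) →
      ∃ A : List Bool → List Bool, IsFP O A ∧ ∃ᶠ n : ℕ in Filter.atTop, 3 / 4 ≤ S.adv A 0 n) ∧
    OWF O ∧ ¬ PKE O := by
  obtain ⟨O, h1, h2, h3⟩ := main
  refine ⟨O, h1, h2, h3, ?_, ?_⟩
  · obtain ⟨f, hf, hI⟩ := h2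
    refine ⟨f, hf, fun I p hIp c => ?_⟩
    have h4 : ∀ᶠ n : ℕ in Filter.atTop, n ^ c ≤ 2 ^ (n / 2) := by
      have h5 := (tendsto_pow_const_div_const_pow_of_one_lt (c + 1) (r := 2) (by norm_num))
      have h6 : ∀ᶠ m : ℕ in Filter.atTop, (m : ℝ) ^ (c + 1) / 2 ^ m < 1 :=
        h5.eventually (gt_mem_nhds one_pos)
      obtain ⟨m₀, hm₀⟩ := Filter.eventually_atTop.1 h6
      obtain ⟨T, hT⟩ : ∃ T, 3 ^ c = T := ⟨_, rfl⟩
      refine Filter.eventually_atTop.2 ⟨2 * (m₀ + T + 1), fun n hn => ?_⟩
      have h7 := hm₀ (n / 2) (by omega)
      rw [div_lt_one (by positivity)] at h7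
      have h8 : (n / 2) ^ (c + 1) < 2 ^ (n / 2) := by exact_mod_cast h7
      refine le_trans ?_ h8.le
      have h9 : n ≤ 3 * (n / 2) := by omega
      calc n ^ c ≤ (3 * (n / 2)) ^ c := Nat.pow_le_pow_left h9 c
        _ = 3 ^ c * (n / 2) ^ c := by rw [mul_pow]
        _ ≤ (n / 2) * (n / 2) ^ c := Nat.mul_le_mul_right _ (by rw [hT]; omega)
        _ = (n / 2) ^ (c + 1) := by rw [pow_succ, mul_comm]
    filter_upwards [hI I p hIp, h4, Filter.eventually_gt_atTop 0] with n h5 h6 h7
    refine h5.trans ?_
    have h8 : ((n : ℝ)) ^ c ≤ 2 ^ (n / 2) := by exact_mod_cast h6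
    exact one_div_le_one_div_of_le (by positivity) h8
  · rintro ⟨S, hS, herr, hadv⟩
    have h4 : ∀ᶠ n : ℕ in Filter.atTop, ∀ b, S.err n b ≤ 1 / 100 := by
      have h5 : ∀ b, ∀ᶠ n : ℕ in Filter.atTop, S.err n b ≤ 1 / 100 := by
        intro b
        filter_upwards [herr b 1, Filter.eventually_ge_atTop 100] with n h6 h7
        refine h6.trans ?_
        rw [pow_one]
        have : (100 : ℝ) ≤ n := by exact_mod_cast h7
        exact one_div_le_one_div_of_le (by norm_num) this
      filter_upwards [h5 true, h5 false] with n h6 h7 b
      cases b
      · exact h7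
      · exact h6
    obtain ⟨A, hA, hf⟩ := h3 S hS h4
    have h5 : ∀ᶠ n : ℕ in Filter.atTop, S.adv A 0 n < 3 / 4 := by
      filter_upwards [hadv A 0 hA 1, Filter.eventually_ge_atTop 2] with n h6 h7
      refine h6.trans_lt ?_
      rw [pow_one]
      have : (2 : ℝ) ≤ n := by exact_mod_cast h7
      refine (one_div_le_one_div_of_le (by norm_num) this).trans_lt ?_
      norm_num
    obtain ⟨n, h6, h7⟩ := (hf.and_eventually h5).exists
    exact absurd h6 (not_le.2 h7)

end Pool.Agent.Results.MP_5f4f03_lc.UniqueProofsNoPKE
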